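import Pool.Agent.Q89.CE.Alg

/-!
# State-preserving approximate conjugacy of unital maps from `O_∞` fails

Idea.  The centralizer `{c | μ(cy) = μ(yc) for all y}` of a state is invariant under all
automorphisms which preserve the state.  So it is enough to find `φ₁, φ₂ : O_∞ → D` with
`μ ∘ φ₁ = μ ∘ φ₂` and a projection `p` with `φ₁(p)` in the centralizer and `φ₂(p)` not in the
centralizer.  Let `D` contain `a ⊗ 1` and `1 ⊗ a`, `a ∈ O_∞`, and take for `μ` the mean of the vector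
states of `e₁ ⊗ f₁` and `e₂ ⊗ f₂`, with `e₁, e₂` orthonormal, `p e₁ = e₁`, `p e₂ = 0` and
`f₁, f₂ = (e₁ ± e₂)/√2`.
-/

set_option autoImplicit false

open scoped ComplexConjugate ComplexOrder InnerProductSpace
open TopologicalSpace

noncomputable section

namespace Pool.Agent.Results.MP_ced2c5_an.NoStatePreserving

/-- `O` is the Cuntz algebra `O_∞`: it is generated as a C*-algebra by a sequence of isometries
with mutually orthogonal ranges. -/
def IsCuntzInfinity (O : Type) [CStarAlgebra O] : Prop :=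
  Nontrivial O ∧ ∃ s : ℕ → O, (∀ i, star (s i) * s i = 1) ∧ (∀ i j, i ≠ j → star (s i) * s j = 0) ∧
    (StarAlgebra.adjoin ℂ (Set.range s)).topologicalClosure = ⊤

/-- simple: the only closed two-sided ideals are `0` and `D`. -/
def IsSimple (D : Type) [CStarAlgebra D] : Prop :=
  Nontrivial D ∧ ∀ I : TwoSidedIdeal D, IsClosed (I : Set D) → I = ⊥ ∨ I = ⊤

/-- `p` is an infinite projection: it is equivalent to a proper subprojection. -/
def IsInfiniteProj {B : Type} [CStarAlgebra B] (p : B) : Prop :=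
  star p = p ∧ p * p = p ∧
    ∃ w : B, star w * w = p ∧ p * (w * star w) = w * star w ∧ w * star w ≠ p

/-- `H` is a hereditary C*-subalgebra: closed, and `0 ≤ y ≤ x ∈ H` implies `y ∈ H`
(here `y = c* c` and `x - y = d* d`). -/
def IsHereditary {B : Type} [CStarAlgebra B] (H : NonUnitalStarSubalgebra ℂ B) : Prop :=
  IsClosed (H : Set B) ∧ ∀ c d : B, star c * c + star d * d ∈ H → star c * c ∈ H

/-- Pure infiniteness: every nonzero hereditary C*-subalgebra contains an infinite projection. -/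
def IsPurelyInfinite (B : Type) [CStarAlgebra B] : Prop :=
  ∀ H : NonUnitalStarSubalgebra ℂ B, IsHereditary H → (∃ b ∈ H, b ≠ 0) →
    ∃ p ∈ H, IsInfiniteProj p

/-- `μ` is a state. -/
structure IsState {D : Type} [CStarAlgebra D] (μ : D →ₗ[ℂ] ℂ) : Prop where
  one : μ 1 = 1
  pos : ∀ x, 0 ≤ μ (star x * x)

open Pool.CS Pool.CS.N_amp Pool.Agent.W658.ZS Q89.CE

/-- the flip of the two factors -/
def flip : Wd GZ × YY ≃ Wd GZ × YY where
  toFun q := (q.2.1, (q.1, q.2.2))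
  invFun q := (q.2.1, (q.1, q.2.2))
  left_inv _ := rfl
  right_inv _ := rfl

/-- `a ↦ a ⊗ 1` -/
def L1 : BW GZ Unit →⋆ₐ[ℂ] BW GZ YY :=
  (((pm flip).conjStarAlgEquiv : BW GZ YY ≃⋆ₐ[ℂ] BW GZ YY) : BW GZ YY →⋆ₐ[ℂ] BW GZ YY).comp AmpH

/-- `a ↦ 1 ⊗ a` -/
def L2 : BW GZ Unit →⋆ₐ[ℂ] BW GZ YY := Amp GZ

theorem L1_apply (a : BW GZ Unit) (f : l2 (Wd GZ × YY)) :
    L1 a f = pm flip (ampL a ((pm flip).symm f)) := rfl

theorem pm_dlt (v w : Wd GZ) : pm flip (dlt (v, (w, ()))) = dlt (w, (v, ())) := by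
  ext ⟨a, ⟨b, ⟨⟩⟩⟩
  show (dlt (v, (w, ())) : l2 (Wd GZ × YY)) (b, (a, ())) = _
  by_cases h : a = w ∧ b = v
  · obtain ⟨rfl, rfl⟩ := h
    rw [dlt_self, dlt_self]
  · rw [dlt_ne, dlt_ne]
    · intro h'
      exact h ⟨congrArg Prod.fst h', congrArg (fun q => q.2.1) h'⟩
    · intro h'
      exact h ⟨congrArg (fun q => q.2.1) h', congrArg Prod.fst h'⟩

theorem pm_symm_dlt (v w : Wd GZ) : (pm flip).symm (dlt (v, (w, ()))) = dlt (w, (v, ())) := by
  rw [LinearIsometryEquiv.symm_apply_eq, pm_dlt]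

/-- matrix coefficients of `1 ⊗ a` -/
theorem inner_L2 (a : BW GZ Unit) (v w v' w' : Wd GZ) :
    ⟪(dlt (v, (w, ())) : l2 (Wd GZ × YY)), L2 a (dlt (v', (w', ())))⟫_ℂ =
      ⟪(dlt v : l2 (Wd GZ)), dlt v'⟫_ℂ * ⟪(dlt (w, ()) : l2 YY), a (dlt (w', ()))⟫_ℂ := by
  unfold L2
  rw [Amp_dlt, ← ten_dlt, inner_ten]

/-- matrix coefficients of `a ⊗ 1` -/
theorem inner_L1 (a : BW GZ Unit) (v w v' w' : Wd GZ) :
    ⟪(dlt (v, (w, ())) : l2 (Wd GZ × YY)), L1 a (dlt (v', (w', ())))⟫_ℂ =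
      ⟪(dlt w : l2 (Wd GZ)), dlt w'⟫_ℂ * ⟪(dlt (v, ()) : l2 YY), a (dlt (v', ()))⟫_ℂ := by
  rw [L1_apply, pm_symm_dlt, ← pm_dlt, LinearIsometryEquiv.inner_map_map]
  exact inner_L2 a w v w' v'

theorem L1_s (x : GZ) : L1 (s Unit x) = s YY x := by
  apply ext_dlt
  rintro ⟨v, ⟨w, ⟨⟩⟩⟩
  rw [L1_apply, pm_symm_dlt]
  have h1 : ampL (s Unit x) (dlt (w, (v, ())) : l2 (Wd GZ × YY)) = dlt (w, (sgm x v, ())) := by
    have := Amp_dlt (G := GZ) (s Unit x) w (v, ())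
    refine Eq.trans this ?_
    unfold s
    rw [WE_dlt, ten_dlt]
  rw [h1, pm_dlt]
  unfold s
  rw [WE_dlt]

/-- the isometries of `O_∞` -/
def so (n : ℕ) : BW GZ Unit := s Unit (Multiplicative.ofAdd (n : ℤ))

/-- `O_∞` -/
abbrev OO : StarSubalgebra ℂ (BW GZ Unit) :=
  (StarAlgebra.adjoin ℂ (Set.range so)).topologicalClosure

instance : IsClosed (OO : Set (BW GZ Unit)) :=
  (StarAlgebra.adjoin ℂ (Set.range so)).isClosed_topologicalClosure

theorem so_mem (n : ℕ) : so n ∈ OO :=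
  (StarAlgebra.adjoin ℂ (Set.range so)).le_topologicalClosure
    (StarAlgebra.subset_adjoin ℂ _ ⟨n, rfl⟩)

theorem OO_cuntz : IsCuntzInfinity OO := by
  refine ⟨⟨⟨1, 0, fun h => ?_⟩⟩, fun n => ⟨so n, so_mem n⟩, fun i => Subtype.ext ?_,
    fun i j hij => Subtype.ext ?_, ?_⟩
  · have h1 : (1 : BW GZ Unit) = 0 := congrArg Subtype.val h
    have h2 := congrArg (fun T : BW GZ Unit => ‖T (dlt (Om, ()))‖) h1
    simp only [one_apply_eq_self, zero_apply, norm_zero, norm_dlt] at h2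
    exact one_ne_zero h2
  · exact star_s_mul_s _
  · refine star_s_mul_s_ne fun h => hij ?_
    exact_mod_cast Multiplicative.ofAdd.injective h
  · rw [eq_top_iff]
    rintro x -
    have hx : (x : BW GZ Unit) ∈ closure ((StarAlgebra.adjoin ℂ (Set.range so) :
      StarSubalgebra ℂ (BW GZ Unit)) : Set (BW GZ Unit)) := x.2
    have h1 : (StarAlgebra.adjoin ℂ (Set.range fun n => (⟨so n, so_mem n⟩ : OO))).map (OO.subtype) =
        StarAlgebra.adjoin ℂ (Set.range so) := by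
      rw [StarAlgHom.map_adjoin, ← Set.range_comp]
      rfl
    change x ∈ closure ((StarAlgebra.adjoin ℂ (Set.range fun n => (⟨so n, so_mem n⟩ : OO)) :
      StarSubalgebra ℂ OO) : Set OO)
    rw [Topology.IsEmbedding.subtypeVal.closure_eq_preimage_closure_image]
    change (x : BW GZ Unit) ∈ closure (Subtype.val '' _)
    rw [← h1] at hx
    exact hx

theorem OO_le (S : StarSubalgebra ℂ (BW GZ Unit)) (hS : IsClosed (S : Set (BW GZ Unit)))
    (h : ∀ n, so n ∈ S) : OO ≤ S := by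
  refine StarSubalgebra.topologicalClosure_minimal (StarAlgebra.adjoin_le ?_) hS
  rintro _ ⟨n, rfl⟩
  exact h n

theorem L1_mem {a : BW GZ Unit} (ha : a ∈ OO) : L1 a ∈ DD := by
  have h1 : OO ≤ DD.comap L1 := by
    apply OO_le
    · exact (Bt_closed C1).preimage (star_hom_continuous L1)
    · intro n
      show L1 (so n) ∈ DD
      unfold so
      rw [L1_s]
      exact PP_mem _ (PP_s _)
  exact h1 ha

theorem L2_mem {a : BW GZ Unit} (ha : a ∈ OO) : L2 a ∈ DD := by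
  have h1 : OO ≤ C1 := OO_le _ (Bt_closed C0) fun n => PP_mem _ (PP_s _)
  exact Amp_mem _ (h1 ha)

/-- the first homomorphism -/
def φa : OO →⋆ₐ[ℂ] DD := (L1.comp OO.subtype).codRestrict DD fun a => L1_mem a.2

/-- the second homomorphism -/
def φb : OO →⋆ₐ[ℂ] DD := (L2.comp OO.subtype).codRestrict DD fun a => L2_mem a.2

/-- the letter -/
def xx : GZ := Multiplicative.ofAdd ((0 : ℕ) : ℤ)

/-- the first word -/
def w1 : Wd GZ := sgm xx Om

/-- the first vector -/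
def η₁ : l2 (Wd GZ × YY) := dlt (w1, (w1, ())) + dlt (w1, (Om, ()))

/-- the second vector -/
def η₂ : l2 (Wd GZ × YY) := dlt (Om, (w1, ())) - dlt (Om, (Om, ()))

/-- the functional -/
def μ0 : BW GZ YY →ₗ[ℂ] ℂ where
  toFun T := (1 / 4 : ℂ) * (⟪η₁, T η₁⟫_ℂ + ⟪η₂, T η₂⟫_ℂ)
  map_add' S T := by
    simp only [ContinuousLinearMap.add_apply, inner_add_right]; ring
  map_smul' c T := by
    simp only [ContinuousLinearMap.smul_apply, inner_smul_right, RingHom.id_apply, smul_eq_mul]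
    ring

/-- the state -/
def μ : DD →ₗ[ℂ] ℂ := μ0.comp (DD.toSubalgebra.val.toLinearMap)

theorem μ_apply (T : DD) : μ T = (1 / 4 : ℂ) * (⟪η₁, (T : BW GZ YY) η₁⟫_ℂ +
    ⟪η₂, (T : BW GZ YY) η₂⟫_ℂ) := rfl

theorem w1_ne : w1 ≠ (Om : Wd GZ) := by
  intro h
  have := congrArg Prod.fst h
  simp [w1, sgm, Om] at this

theorem inner_dd {α : Type} [DecidableEq α] (a b : α) :
    ⟪(dlt a : l2 α), dlt b⟫_ℂ = if a = b then 1 else 0 := by
  rw [inner_dlt_left]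
  split_ifs with h
  · subst h; exact dlt_self _
  · exact dlt_ne h

theorem state_μ : IsState μ := by
  classical
  constructor
  · rw [μ_apply]
    show (1 / 4 : ℂ) * (⟪η₁, η₁⟫_ℂ + ⟪η₂, η₂⟫_ℂ) = 1
    unfold η₁ η₂
    simp only [inner_add_left, inner_add_right, inner_sub_left, inner_sub_right, inner_dd]
    have h1 : ((w1, (w1, ())) : Wd GZ × YY) ≠ (w1, (Om, ())) := fun h =>
      w1_ne (congrArg (fun q => q.2.1) h)
    have h2 : ((Om, (w1, ())) : Wd GZ × YY) ≠ (Om, (Om, ())) := fun h =>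
      w1_ne (congrArg (fun q => q.2.1) h)
    rw [if_neg h1, if_neg h1.symm, if_neg h2, if_neg h2.symm]
    norm_num
  · intro x
    rw [μ_apply]
    have h1 : ∀ η : l2 (Wd GZ × YY), ⟪η, ((star x * x : DD) : BW GZ YY) η⟫_ℂ =
        ((‖(x : BW GZ YY) η‖ ^ 2 : ℝ) : ℂ) := by
      intro η
      show ⟪η, (star (x : BW GZ YY)) ((x : BW GZ YY) η)⟫_ℂ = _
      rw [ContinuousLinearMap.star_eq_adjoint, ContinuousLinearMap.adjoint_inner_right,
        inner_self_eq_norm_sq_to_K]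
      simp
    rw [h1, h1, ← Complex.ofReal_add]
    have h2 : (0 : ℂ) ≤ ((1 / 4 * (‖(x : BW GZ YY) η₁‖ ^ 2 + ‖(x : BW GZ YY) η₂‖ ^ 2) : ℝ) : ℂ) := by
      rw [Complex.zero_le_real]
      positivity
    convert h2 using 1
    push_cast
    ring

theorem norm_η₁ : ‖η₁‖ ^ 2 = 2 := by
  classical
  have h : ⟪η₁, η₁⟫_ℂ = 2 := by
    unfold η₁
    simp only [inner_add_left, inner_add_right, inner_dd]
    have h1 : ((w1, (w1, ())) : Wd GZ × YY) ≠ (w1, (Om, ())) := fun h =>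
      w1_ne (congrArg (fun q => q.2.1) h)
    rw [if_neg h1, if_neg h1.symm]
    norm_num
  rw [inner_self_eq_norm_sq_to_K] at h
  apply Complex.ofReal_injective
  rw [Complex.ofReal_pow]
  exact h

theorem norm_η₂ : ‖η₂‖ ^ 2 = 2 := by
  classical
  have h : ⟪η₂, η₂⟫_ℂ = 2 := by
    unfold η₂
    simp only [inner_sub_left, inner_sub_right, inner_dd]
    have h1 : ((Om, (w1, ())) : Wd GZ × YY) ≠ (Om, (Om, ())) := fun h =>
      w1_ne (congrArg (fun q => q.2.1) h)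
    rw [if_neg h1, if_neg h1.symm]
    norm_num
  rw [inner_self_eq_norm_sq_to_K] at h
  apply Complex.ofReal_injective
  rw [Complex.ofReal_pow]
  exact h

theorem μ_le (x : DD) : ‖μ x‖ ≤ ‖x‖ := by
  rw [μ_apply]
  have h1 : ∀ η : l2 (Wd GZ × YY), ‖⟪η, (x : BW GZ YY) η⟫_ℂ‖ ≤ ‖η‖ ^ 2 * ‖x‖ := by
    intro η
    calc ‖⟪η, (x : BW GZ YY) η⟫_ℂ‖ ≤ ‖η‖ * ‖(x : BW GZ YY) η‖ := norm_inner_le_norm _ _
      _ ≤ ‖η‖ * (‖(x : BW GZ YY)‖ * ‖η‖) := by gcongr; exact (x : BW GZ YY).le_opNorm η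
      _ = ‖η‖ ^ 2 * ‖(x : BW GZ YY)‖ := by ring
      _ = _ := rfl
  have h2 := h1 η₁
  have h3 := h1 η₂
  rw [norm_η₁] at h2
  rw [norm_η₂] at h3
  calc ‖(1 / 4 : ℂ) * (⟪η₁, (x : BW GZ YY) η₁⟫_ℂ + ⟪η₂, (x : BW GZ YY) η₂⟫_ℂ)‖
      ≤ 1 / 4 * (2 * ‖x‖ + 2 * ‖x‖) := by
        rw [norm_mul]
        have : ‖(1 / 4 : ℂ)‖ = 1 / 4 := by norm_num
        rw [this]
        gcongr
        exact (norm_add_le _ _).trans (add_le_add h2 h3)
    _ = ‖x‖ := by ring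

theorem μ_agree (a : OO) : μ (φa a) = μ (φb a) := by
  classical
  rw [μ_apply, μ_apply]
  show (1 / 4 : ℂ) * (⟪η₁, L1 a η₁⟫_ℂ + ⟪η₂, L1 a η₂⟫_ℂ) =
    (1 / 4 : ℂ) * (⟪η₁, L2 a η₁⟫_ℂ + ⟪η₂, L2 a η₂⟫_ℂ)
  unfold η₁ η₂
  simp only [map_add, map_sub, inner_add_left, inner_add_right, inner_sub_left, inner_sub_right,
    inner_L1, inner_L2]
  simp only [inner_dd, if_neg w1_ne, if_neg w1_ne.symm, if_true, zero_mul, one_mul, sub_zero,
    zero_sub, add_zero, zero_add]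
  ring

/-- the projection -/
def pp : OO := ⟨so 0 * star (so 0), mul_mem (so_mem 0) (star_mem (so_mem 0))⟩

/-- the witness -/
def dd : DD := φa pp * φb ⟨so 0, so_mem 0⟩

theorem L2_s_dlt (x : GZ) (v w : Wd GZ) : L2 (s Unit x) (dlt (v, (w, ()))) =
    dlt (v, (sgm x w, ())) := by
  unfold L2
  rw [Amp_dlt]
  unfold s
  rw [WE_dlt, ten_dlt]

theorem star_s_sgm {Y : Type} (x : GZ) (v : Wd GZ) (y : Y) :
    star (s Y x) (dlt (sgm x v, y)) = dlt (v, y) := by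
  have h1 : (dlt (sgm x v, y) : l2 (Wd GZ × Y)) = s Y x (dlt (v, y)) := by
    unfold s; rw [WE_dlt]
  rw [h1]
  show (star (s Y x) * s Y x) (dlt (v, y)) = _
  rw [star_s_mul_s]; rfl

theorem star_s_Om {Y : Type} (x : GZ) (y : Y) : star (s Y x) (dlt ((Om : Wd GZ), y)) = 0 := by
  have := star_s_Vi (Y := Y) x (dlt y)
  rwa [Vi_dlt] at this

/-- `p ⊗ 1` on point masses -/
theorem P1_w1 (w : Wd GZ) : L1 (so 0 * star (so 0)) (dlt (w1, (w, ()))) = dlt (w1, (w, ())) := by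
  rw [map_mul, map_star]
  have h : L1 (so 0) = s YY xx := L1_s _
  rw [h]
  show s YY xx (star (s YY xx) (dlt (w1, (w, ())))) = _
  unfold w1
  rw [star_s_sgm]
  unfold s
  rw [WE_dlt]

theorem P1_Om (w : Wd GZ) : L1 (so 0 * star (so 0)) (dlt (Om, (w, ()))) = 0 := by
  rw [map_mul, map_star]
  have h : L1 (so 0) = s YY xx := L1_s _
  rw [h]
  show s YY xx (star (s YY xx) (dlt (Om, (w, ())))) = _
  rw [star_s_Om, map_zero]

/-- `1 ⊗ p` on point masses -/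
theorem P2_w1 (v : Wd GZ) : L2 (so 0 * star (so 0)) (dlt (v, (w1, ()))) = dlt (v, (w1, ())) := by
  unfold L2
  rw [Amp_dlt]
  have : (so 0 * star (so 0)) (dlt (w1, ())) = dlt (w1, ()) := by
    show s Unit xx (star (s Unit xx) (dlt (w1, ()))) = _
    unfold w1
    rw [star_s_sgm]
    unfold s
    rw [WE_dlt]
  rw [this, ten_dlt]

theorem P2_Om (v : Wd GZ) : L2 (so 0 * star (so 0)) (dlt (v, (Om, ()))) = 0 := by
  unfold L2
  rw [Amp_dlt]
  have : (so 0 * star (so 0)) (dlt ((Om : Wd GZ), ())) = 0 := by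
    show s Unit xx (star (s Unit xx) (dlt (Om, ()))) = _
    rw [star_s_Om, map_zero]
  rw [this]
  ext q
  rw [ten_apply]
  simp

theorem P1_η₁ : L1 (so 0 * star (so 0)) η₁ = η₁ := by
  unfold η₁
  rw [map_add, P1_w1, P1_w1]

theorem P1_η₂ : L1 (so 0 * star (so 0)) η₂ = 0 := by
  unfold η₂
  rw [map_sub, P1_Om, P1_Om, sub_zero]

theorem P2_η₁ : L2 (so 0 * star (so 0)) η₁ = dlt (w1, (w1, ())) := by
  unfold η₁
  rw [map_add, P2_w1, P2_Om, add_zero]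

theorem P2_η₂ : L2 (so 0 * star (so 0)) η₂ = dlt (Om, (w1, ())) := by
  unfold η₂
  rw [map_sub, P2_w1, P2_Om, sub_zero]

theorem star_pp : star (so 0 * star (so 0)) = so 0 * star (so 0) := by
  rw [star_mul, star_star]

theorem inner_sa (T : BW GZ YY) (hT : star T = T) (f g : l2 (Wd GZ × YY)) :
    ⟪f, T g⟫_ℂ = ⟪T f, g⟫_ℂ := by
  conv_lhs => rw [← hT]
  rw [ContinuousLinearMap.star_eq_adjoint, ContinuousLinearMap.adjoint_inner_right]

/-- `φ₁(p)` is in the centralizer -/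
theorem central (y : DD) : μ (φa pp * y) = μ (y * φa pp) := by
  rw [μ_apply, μ_apply]
  have hs : star (L1 (so 0 * star (so 0))) = L1 (so 0 * star (so 0)) := by
    rw [← map_star, star_pp]
  show (1 / 4 : ℂ) * (⟪η₁, L1 (so 0 * star (so 0)) ((y : BW GZ YY) η₁)⟫_ℂ +
      ⟪η₂, L1 (so 0 * star (so 0)) ((y : BW GZ YY) η₂)⟫_ℂ) =
    (1 / 4 : ℂ) * (⟪η₁, (y : BW GZ YY) (L1 (so 0 * star (so 0)) η₁)⟫_ℂ +
      ⟪η₂, (y : BW GZ YY) (L1 (so 0 * star (so 0)) η₂)⟫_ℂ)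
  rw [inner_sa _ hs, inner_sa _ hs, P1_η₁, P1_η₂, map_zero, inner_zero_left, inner_zero_right]

theorem dd_η₁ : (dd : BW GZ YY) (dlt (w1, (w1, ()))) = dlt (w1, (sgm xx w1, ())) := by
  show L1 (so 0 * star (so 0)) (L2 (s Unit xx) (dlt (w1, (w1, ())))) = _
  rw [L2_s_dlt, P1_w1]

theorem dd_η₁' : (dd : BW GZ YY) (dlt (w1, (Om, ()))) = dlt (w1, (w1, ())) := by
  show L1 (so 0 * star (so 0)) (L2 (s Unit xx) (dlt (w1, (Om, ())))) = _
  rw [L2_s_dlt, P1_w1]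
  rfl

theorem dd_Om (w : Wd GZ) : (dd : BW GZ YY) (dlt (Om, (w, ()))) = 0 := by
  show L1 (so 0 * star (so 0)) (L2 (s Unit xx) (dlt (Om, (w, ())))) = _
  rw [L2_s_dlt, P1_Om]

theorem not_central : μ (φb pp * dd) = 1 / 4 ∧ μ (dd * φb pp) = 0 := by
  classical
  have hs : star (L2 (so 0 * star (so 0))) = L2 (so 0 * star (so 0)) := by
    rw [← map_star, star_pp]
  have hn1 : ((w1, (w1, ())) : Wd GZ × YY) ≠ (w1, (sgm xx w1, ())) := by
    intro h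
    have := congrArg (fun q => q.2.1.1) h
    simp [w1, sgm, Om] at this
  have hn2 : ((w1, (Om, ())) : Wd GZ × YY) ≠ (w1, (sgm xx w1, ())) := by
    intro h
    have := congrArg (fun q => q.2.1.1) h
    simp [w1, sgm, Om] at this
  constructor
  · rw [μ_apply]
    show (1 / 4 : ℂ) * (⟪η₁, L2 (so 0 * star (so 0)) ((dd : BW GZ YY) η₁)⟫_ℂ +
      ⟪η₂, L2 (so 0 * star (so 0)) ((dd : BW GZ YY) η₂)⟫_ℂ) = _
    rw [inner_sa _ hs, inner_sa _ hs, P2_η₁, P2_η₂]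
    unfold η₁ η₂
    rw [map_add, map_sub, dd_η₁, dd_η₁', dd_Om, dd_Om, sub_zero, inner_zero_right,
      inner_add_right, inner_dd, inner_dd, if_neg hn1, if_pos rfl]
    norm_num
  · rw [μ_apply]
    show (1 / 4 : ℂ) * (⟪η₁, (dd : BW GZ YY) (L2 (so 0 * star (so 0)) η₁)⟫_ℂ +
      ⟪η₂, (dd : BW GZ YY) (L2 (so 0 * star (so 0)) η₂)⟫_ℂ) = _
    rw [P2_η₁, P2_η₂, dd_η₁, dd_Om]
    unfold η₁
    rw [inner_add_left, inner_dd, inner_dd, if_neg hn1, if_neg hn2, inner_zero_right]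
    norm_num

theorem norm_dd : ‖dd‖ ≤ 1 := by
  have h1 : ‖L2 (s Unit xx)‖ ≤ 1 := (norm_Amp_le _).trans (norm_s_le _)
  have h2 : ‖L1 (so 0 * star (so 0))‖ ≤ 1 := by
    have h : L1 (so 0) = s YY xx := L1_s _
    rw [map_mul, map_star, h]
    have h3 := norm_s_le (Y := YY) xx
    calc ‖s YY xx * star (s YY xx)‖ ≤ ‖s YY xx‖ * ‖star (s YY xx)‖ := norm_mul_le _ _
      _ ≤ 1 * 1 := by
        have h5 : ‖star (s YY xx)‖ = ‖s YY xx‖ := by
          rw [ContinuousLinearMap.star_eq_adjoint]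
          exact LinearIsometryEquiv.norm_map _ _
        rw [h5]
        gcongr
      _ = 1 := one_mul _
  show ‖L1 (so 0 * star (so 0)) * L2 (s Unit xx)‖ ≤ 1
  calc _ ≤ ‖L1 (so 0 * star (so 0))‖ * ‖L2 (s Unit xx)‖ := norm_mul_le _ _
    _ ≤ 1 * 1 := by gcongr
    _ = 1 := one_mul _

theorem key (α : DD ≃⋆ₐ[ℂ] DD) (hα : ∀ x, μ (α x) = μ x) : 1 / 8 ≤ ‖φb pp - α (φa pp)‖ := by
  set c := α (φa pp) with hc
  have hcc : ∀ y, μ (c * y) = μ (y * c) := by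
    intro y
    have h1 := central (α.symm y)
    rw [← hα (φa pp * _), ← hα (α.symm y * _), map_mul α, map_mul α,
      StarAlgEquiv.apply_symm_apply] at h1
    exact h1
  obtain ⟨h1, h2⟩ := not_central
  have h3 : (1 / 4 : ℂ) = μ ((φb pp - c) * dd) - μ (dd * (φb pp - c)) := by
    rw [sub_mul, mul_sub, map_sub, map_sub, h1, h2, hcc]
    ring
  have h4 : (1 / 4 : ℝ) ≤ 2 * ‖φb pp - c‖ := by
    calc (1 / 4 : ℝ) = ‖(1 / 4 : ℂ)‖ := by norm_num
      _ = ‖μ ((φb pp - c) * dd) - μ (dd * (φb pp - c))‖ := by rw [← h3]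
      _ ≤ ‖μ ((φb pp - c) * dd)‖ + ‖μ (dd * (φb pp - c))‖ := norm_sub_le _ _
      _ ≤ ‖(φb pp - c) * dd‖ + ‖dd * (φb pp - c)‖ := add_le_add (μ_le _) (μ_le _)
      _ ≤ ‖φb pp - c‖ * ‖dd‖ + ‖dd‖ * ‖φb pp - c‖ := add_le_add (norm_mul_le _ _) (norm_mul_le _ _)
      _ ≤ ‖φb pp - c‖ * 1 + 1 * ‖φb pp - c‖ := by
          gcongr
          · exact norm_dd
          · exact norm_dd
      _ = _ := by ring
  linarith

/-- **Q1 and Q2 have a negative answer.** -/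
theorem result :
    ∃ (O D : Type) (_ : CStarAlgebra O) (_ : CStarAlgebra D) (μ : D →ₗ[ℂ] ℂ)
      (φ₁ φ₂ : O →⋆ₐ[ℂ] D),
      IsCuntzInfinity O ∧ SeparableSpace D ∧ IsSimple D ∧ IsPurelyInfinite D ∧ IsState μ ∧
      (∀ a, μ (φ₁ a) = μ (φ₂ a)) ∧
      ∃ p : O, ∀ α : D ≃⋆ₐ[ℂ] D, (∀ x, μ (α x) = μ x) → 1 / 8 ≤ ‖φ₂ p - α (φ₁ p)‖ := by
  refine ⟨OO, DD, inferInstance, inferInstance, μ, φa, φb, OO_cuntz, sep_D, simple_D, pi_D,
    state_μ, μ_agree, pp, key⟩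

end Pool.Agent.Results.MP_ced2c5_an.NoStatePreserving
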